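import Pool.Agent.MVD.StmtsLoc

set_option autoImplicit false

namespace Pool.Agent.MVD.H82

open Pool.Agent.MVD Pool.Agent.Helper14_MV Pool.Agent.Helper2_MV

/-- the projection to `a`, `b` and the separator of `s` -/
def pr (a b s : ℕ) (c : ℕ) : Bool := decide (c = a ∨ c = b ∨ c = 3 * s + 2)

theorem filter_nil_of {a b s : ℕ} {l : List ℕ} (hl : SFr l) (h1 : l.count a = 0)
    (h2 : l.count b = 0) : l.filter (pr a b s) = [] := by
  rw [List.filter_eq_nil_iff]
  intro c hc hp
  rw [pr, decide_eq_true_iff] at hp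
  rcases hp with rfl | rfl | rfl
  · exact (List.count_eq_zero.mp h1) hc
  · exact (List.count_eq_zero.mp h2) hc
  · have := hl _ hc
    omega

theorem sep_nil {a b s r : ℕ} (ha : a % 3 ≠ 2) (hb : b % 3 ≠ 2) (hr : r ≠ s) :
    ([3 * r + 2] : List ℕ).filter (pr a b s) = [] := by
  rw [List.filter_eq_nil_iff]
  intro c hc hp
  rw [List.mem_singleton] at hc
  rw [pr, decide_eq_true_iff] at hp
  omega

theorem sep_self {a b s : ℕ} : ([3 * s + 2] : List ℕ).filter (pr a b s) = [3 * s + 2] := by
  simp [pr]

theorem flatMap_nil {α : Type} {f : α → List ℕ} : ∀ l : List α, (∀ x ∈ l, f x = []) →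
    l.flatMap f = [] := by
  intro l hl
  rw [List.flatMap_eq_nil_iff]
  exact hl

theorem repl_of {c : ℕ} {l : List ℕ} (h : ∀ x ∈ l, x = c) :
    l = List.replicate (l.count c) c := by
  have h1 : l.count c = l.length := List.count_eq_length.mpr (fun x hx => (h x hx).symm)
  rw [h1]
  exact List.eq_replicate_iff.mpr ⟨rfl, h⟩

/-- the projection of the word -/
theorem proj {a b s m : ℕ} {R : List ℕ} {B : ℕ → List ℕ} {e : List ℕ} (hR : R.Nodup)
    (hB : ∀ r ∈ R, SFr (B r)) (he : SFr e) (hab : a ≠ b) (ha : a % 3 ≠ 2) (hb : b % 3 ≠ 2)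
    (hbf : Bfr R s m) (hca : ∀ q ∈ R, (B q).count a = if q = m then 2 else 0)
    (hcb : ∀ q ∈ R, (B q).count b = if q = s ∨ q = m then 1 else 0)
    (hea : e.count a = 0) (heb : e.count b = 0) :
    (Bw R B ++ e).filter (pr a b s) = b :: (3 * s + 2) :: (B m).filter (pr a b s) := by
  obtain ⟨A0, B0, C0, rfl⟩ := hbf
  have hnd := hR
  rw [List.nodup_append] at hnd
  obtain ⟨hA0, hrest, hdis⟩ := hnd
  rw [List.nodup_cons] at hrest
  obtain ⟨hs, hrest⟩ := hrest
  rw [List.nodup_append] at hrest
  obtain ⟨hB0, hmC, hdis2⟩ := hrest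
  rw [List.nodup_cons] at hmC
  have hsm : s ≠ m := by
    rintro rfl; exact hs (by simp)
  have hA0s : ∀ r ∈ A0, r ≠ s ∧ r ≠ m := by
    intro r hr
    exact ⟨hdis r hr s (by simp), hdis r hr m (by simp)⟩
  have hB0s : ∀ r ∈ B0, r ≠ s ∧ r ≠ m := by
    intro r hr
    refine ⟨?_, hdis2 r hr m (by simp)⟩
    rintro rfl; exact hs (by simp [hr])
  have hC0s : ∀ r ∈ C0, r ≠ s ∧ r ≠ m := by
    intro r hr
    refine ⟨?_, ?_⟩
    · rintro rfl; exact hs (by simp [hr])
    · rintro rfl; exact hmC.1 hr
  have hzero : ∀ r ∈ A0 ++ s :: (B0 ++ m :: C0), r ≠ s → r ≠ m →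
      (B r ++ [3 * r + 2]).filter (pr a b s) = [] := by
    intro r hr h1 h2
    rw [List.filter_append, sep_nil ha hb h1, filter_nil_of (hB r hr), List.append_nil]
    · rw [hca r hr, if_neg h2]
    · rw [hcb r hr, if_neg (by tauto)]
  have hsblock : (B s ++ [3 * s + 2]).filter (pr a b s) = [b, 3 * s + 2] := by
    have hsR : s ∈ A0 ++ s :: (B0 ++ m :: C0) := by simp
    have h1 : (B s).count a = 0 := by rw [hca s hsR, if_neg hsm]
    have h2 : (B s).count b = 1 := by rw [hcb s hsR, if_pos (Or.inl rfl)]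
    have h3 : (B s).filter (pr a b s) = [b] := by
      have h4 : ∀ x ∈ (B s).filter (pr a b s), x = b := by
        intro x hx
        rw [List.mem_filter] at hx
        obtain ⟨hx1, hx2⟩ := hx
        rw [pr, decide_eq_true_iff] at hx2
        rcases hx2 with rfl | rfl | rfl
        · exact absurd hx1 (List.count_eq_zero.mp h1)
        · rfl
        · have := hB s hsR _ hx1
          omega
      rw [repl_of h4, List.count_filter (by simp [pr]), h2]
      rfl
    rw [List.filter_append, sep_self, h3]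
    rfl
  have hmblock : (B m ++ [3 * m + 2]).filter (pr a b s) = (B m).filter (pr a b s) := by
    rw [List.filter_append, sep_nil ha hb hsm.symm, List.append_nil]
  have e0 : Bw (A0 ++ s :: (B0 ++ m :: C0)) B =
      A0.flatMap (fun r => B r ++ [3 * r + 2]) ++ ((B s ++ [3 * s + 2]) ++
        (B0.flatMap (fun r => B r ++ [3 * r + 2]) ++ ((B m ++ [3 * m + 2]) ++
          C0.flatMap (fun r => B r ++ [3 * r + 2])))) := by
    unfold Bw
    rw [List.flatMap_append, List.flatMap_cons, List.flatMap_append, List.flatMap_cons]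
  have hfl : ∀ l : List ℕ, (∀ r ∈ l, r ∈ A0 ++ s :: (B0 ++ m :: C0) ∧ r ≠ s ∧ r ≠ m) →
      (l.flatMap (fun r => B r ++ [3 * r + 2])).filter (pr a b s) = [] := by
    intro l hl
    rw [List.filter_flatMap]
    exact flatMap_nil l (fun r hr => hzero r (hl r hr).1 (hl r hr).2.1 (hl r hr).2.2)
  rw [List.filter_append, filter_nil_of he hea heb, List.append_nil, e0]
  simp only [List.filter_append (p := pr a b s)]
  rw [hfl A0 (fun r hr => ⟨by simp [hr], hA0s r hr⟩),
    hfl B0 (fun r hr => ⟨by simp [hr], hB0s r hr⟩),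
    hfl C0 (fun r hr => ⟨by simp [hr], hC0s r hr⟩),
    ← List.filter_append, hsblock, ← List.filter_append, hmblock]
  simp

/-- the shape of the main block -/
theorem shape {a b s : ℕ} {L : List ℕ} (hL : SFr L) (hab : a ≠ b) (h2 : L.count a = 2)
    (h1 : L.count b = 1) :
    (L.filter (pr a b s) = [a, a, b] ∧ LA a b L) ∨
      ((L.filter (pr a b s) = [a, b, a] ∨ L.filter (pr a b s) = [b, a, a]) ∧ ¬ LA a b L) := by
  have hb : b ∈ L := List.count_pos_iff.mp (by omega)
  obtain ⟨A, C, rfl⟩ := List.append_of_mem hb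
  rw [List.count_append, List.count_cons_self] at h1
  rw [List.count_append, List.count_cons_of_ne hab.symm] at h2
  have hrep : ∀ D : List ℕ, (∀ x ∈ D, x ∈ A ++ b :: C) → D.count b = 0 →
      D.filter (pr a b s) = List.replicate (D.count a) a := by
    intro D hD hDb
    have h4 : ∀ x ∈ D.filter (pr a b s), x = a := by
      intro x hx
      rw [List.mem_filter] at hx
      obtain ⟨hx1, hx2⟩ := hx
      rw [pr, decide_eq_true_iff] at hx2
      rcases hx2 with rfl | rfl | rfl
      · rfl
      · exact absurd hx1 (List.count_eq_zero.mp hDb)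
      · have := hL _ (hD _ hx1)
        omega
    rw [repl_of h4, List.count_filter (by simp [pr])]
  have hpb : pr a b s b = true := by simp [pr]
  have hf : (A ++ b :: C).filter (pr a b s) =
      List.replicate (A.count a) a ++ b :: List.replicate (C.count a) a := by
    rw [List.filter_append, List.filter_cons, if_pos hpb,
      hrep A (fun x hx => by simp [hx]) (by omega),
      hrep C (fun x hx => by simp [hx]) (by omega)]
  by_cases hC : C.count a = 0
  · left
    have hA : A.count a = 2 := by omega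
    refine ⟨?_, A, C, rfl, List.count_eq_zero.mp hC⟩
    rw [hf, hA, hC]
    rfl
  · right
    refine ⟨?_, ?_⟩
    · rw [hf]
      have : (A.count a = 1 ∧ C.count a = 1) ∨ (A.count a = 0 ∧ C.count a = 2) := by omega
      rcases this with ⟨h3, h4⟩ | ⟨h3, h4⟩
      · left; rw [h3, h4]; rfl
      · right; rw [h3, h4]; rfl
    · rintro ⟨A1, C1, he, haC⟩
      have hb1 : (A1 ++ b :: C1).count b = 1 := by
        rw [← he, List.count_append, List.count_cons_self]; omega
      rw [List.count_append, List.count_cons_self] at hb1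
      have hC1b : b ∉ C1 := List.count_eq_zero.mp (by omega)
      have hA1b : b ∉ A1 := List.count_eq_zero.mp (by omega)
      have hAb : b ∉ A := List.count_eq_zero.mp (by omega)
      have hCb : b ∉ C := List.count_eq_zero.mp (by omega)
      have hlen : A.length = A1.length := by
        have h5 : (A ++ b :: C).takeWhile (fun x => decide (x ≠ b)) = A := by
          rw [List.takeWhile_append_of_pos]
          · simp
          · intro x hx; simp; rintro rfl; exact hAb hx
        have h6 : (A1 ++ b :: C1).takeWhile (fun x => decide (x ≠ b)) = A1 := by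
          rw [List.takeWhile_append_of_pos]
          · simp
          · intro x hx; simp; rintro rfl; exact hA1b hx
        rw [he] at h5
        rw [← h5, h6]
      obtain ⟨-, h7⟩ := List.append_inj he hlen
      have h8 : C = C1 := by simpa using h7
      rw [← h8] at haC
      exact hC (List.count_eq_zero.mpr haC)

theorem rga_core {β : FIC} (hS : S2 β) (hA : ¬ IA β) {a b t : ℕ} {L : List ℕ} (hab : a ≠ b)
    (hat : a ≠ t) (hbt : b ≠ t)
    (h : RR β (b :: t :: [a, a, b]) (b :: t :: L)) (hL : L = [a, b, a] ∨ L = [b, a, a]) :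
    False := by
  apply hA
  have h1 : RR β [b, t, a, a, b] [b, t, b, a, a] := by
    rcases hL with rfl | rfl
    · have h2 := RR.sub (fun c => if c = 0 then [b] else if c = 3 then [a] else
        if c = 2 then [t] else []) hS
      have h3 : RR β [b, t, b, a, a] [b, t, a, b, a] := by simpa using h2
      exact β.trans h h3.symm
    · exact h
  have h4 := RR.sub (fun c => if c = a then [3] else if c = b then [0] else [2]) h1
  have h5 : RR β [0, 2, 3, 3, 0] [0, 2, 0, 3, 3] := by
    simpa [hab, hab.symm, hat, hat.symm, hbt, hbt.symm] using h4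
  exact h5.symm

/-- **RGA** -/
theorem rga : RgaStmt := by
  intro β hS hA R B B' e e' hR hB hB' he he' h a b m s hab ha hb hbf h1 h1' h2 h2' h3 h4 h5 h6
  have hm : m ∈ R := by
    obtain ⟨A0, B0, C0, rfl⟩ := hbf
    simp
  have hf := RR.filter (pr a b s) h
  rw [proj hR hB he hab ha hb hbf h1 h2 h3 h4, proj hR hB' he' hab ha hb hbf h1' h2' h5 h6] at hf
  have c1 : (B m).count a = 2 := by rw [h1 m hm, if_pos rfl]
  have c1' : (B' m).count a = 2 := by rw [h1' m hm, if_pos rfl]
  have c2 : (B m).count b = 1 := by rw [h2 m hm, if_pos (Or.inr rfl)]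
  have c2' : (B' m).count b = 1 := by rw [h2' m hm, if_pos (Or.inr rfl)]
  have hat : a ≠ 3 * s + 2 := by omega
  have hbt : b ≠ 3 * s + 2 := by omega
  rcases shape (s := s) (hB m hm) hab c1 c2 with ⟨e1, l1⟩ | ⟨e1, l1⟩
  · rcases shape (s := s) (hB' m hm) hab c1' c2' with ⟨e2, l2⟩ | ⟨e2, l2⟩
    · exact ⟨fun _ => l2, fun _ => l1⟩
    · rw [e1] at hf
      exact (rga_core hS hA hab hat hbt hf e2).elim
  · rcases shape (s := s) (hB' m hm) hab c1' c2' with ⟨e2, l2⟩ | ⟨e2, l2⟩
    · rw [e2] at hf
      exact (rga_core hS hA hab hat hbt hf.symm e1).elim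
    · exact ⟨fun h => absurd h l1, fun h => absurd h l2⟩

end Pool.Agent.MVD.H82
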